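import Mathlib
import Pool.Agent.T9h47.SX.View

/-!
# How much a nondeterministic circuit breaks a group of negations: definitions
-/

set_option autoImplicit false

namespace Pool.Agent.T9h47.SW

open Pool.Agent.T9h47.SC Pool.Agent.T9h47.SE Pool.Agent.T9h47.SX

/-- The views of the gates of `C` for the witnesses in `W` after negating variables: all functions
`φ ↦ view g (f φ, w)` on the sets `φ` of at most `m` clauses, where `g` is a gate, `w` is a witness
and `f` is in the group `G` of negations. -/
def views {K J : Type} {n k : ℕ} (G : AddSubgroup (Fin n → ZMod 2))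
    (C : Circuit K (Cl n k ⊕ J)) (b₀ b₁ : K) (W : Finset (J → K)) (m : ℕ) :
    Set ({φ : Set (Cl n k) // φ.ncard ≤ m} → K × (ℕ → Multiset K)) :=
  {L | ∃ g, ∃ w ∈ W, ∃ f ∈ G, L = fun φ => view C g (Sum.elim (inp b₀ b₁ (negVars f φ.1)) w)}

/-- The circuit with the set of witnesses `W` is symmetric under the group `G` of negations: each
element of `G`, together with a permutation of the witness coordinates which preserves `W`, extends
to an automorphism. -/
def Symm {K J : Type} {n k : ℕ} (C : Circuit K (Cl n k ⊕ J)) (G : AddSubgroup (Fin n → ZMod 2))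
    (W : Finset (J → K)) : Prop :=
  ∀ f ∈ G, ∃ (θ : Equiv.Perm J) (α : Equiv.Perm C.Gate), C.IsAut (Sum.map (ren 1 f) θ) α ∧
    ∀ w : J → K, w ∘ θ ∈ W ↔ w ∈ W

end Pool.Agent.T9h47.SW
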