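import Mathlib
import Pool.Agent.T9h47.SY.Gen2
import Pool.Agent.T9h47.SX.Final
import Pool.Agent.T9h47.SY.Final
import Pool.Agent.T9h47.SW.Defs

/-!
# Nondeterministic circuits and the group of negations
-/

set_option autoImplicit false
set_option linter.unusedSectionVars false

namespace Pool.Agent.T9h47.SW

open Finset
open Pool.Agent.T9h47.SC Pool.Agent.T9h47.SE Pool.Agent.T9h47.SX
open Pool.Agent.T9h47.SY (VAct vi gen_union)

/-- negations on small instances -/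
def nact (n k m : ℕ) : VAct n {φ : Set (Cl n k) // φ.ncard ≤ m} where
  a := sh
  zero := sh_zero
  add := sh_add

section loc

variable {n k m N : ℕ} {V : Type} [Fintype V] [DecidableEq V] {K J : Type} (e : Fin N ↪ Fin n)
  (b₀ b₁ : K)

/-- the locality of the instances -/
theorem sys_loc (R : V → Finset (Fin N)) (hR : ∀ j, (R j).card ≤ k) (hm : 1 ≤ m)
    (hsm : ∀ c, (emb e '' sys R hR c : Set (Cl n k)).ncard ≤ m) (w : J → K) (c : V → ZMod 2)
    (f₁ : Fin n → ZMod 2) (i : Cl n k ⊕ J)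
    (hne : (Sum.elim (inp b₀ b₁ ((nact n k m).a f₁ ⟨_, hsm c⟩).1) w : Cl n k ⊕ J → K) i ≠
      (Sum.elim (inp b₀ b₁ ((nact n k m).a f₁ ⟨_, hsm 0⟩).1) w : Cl n k ⊕ J → K) i) :
    ∃ j, c j ≠ 0 ∧ ∀ f, (∀ x : {φ : Set (Cl n k) // φ.ncard ≤ m},
      (Sum.elim (inp b₀ b₁ ((nact n k m).a f x).1) w : Cl n k ⊕ J → K) i =
        (Sum.elim (inp b₀ b₁ x.1) w : Cl n k ⊕ J → K) i) →
      AA R (fun v => f (e v)) j = 0 := by
  classical
  rcases i with D | i
  swap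
  · exact absurd rfl hne
  have hne' : inp b₀ b₁ (negVars f₁ (emb e '' sys R hR c)) D ≠
    inp b₀ b₁ (negVars f₁ (emb e '' sys R hR 0)) D := hne
  -- the clause, moved back
  obtain ⟨D', hD'⟩ : ∃ D', D' = ren 1 f₁ D := ⟨_, rfl⟩
  have hb : b₀ ≠ b₁ := by
    intro hb
    apply hne'
    unfold inp
    rw [hb, ite_self, ite_self]
  have hys : ∀ c, inp b₀ b₁ (negVars f₁ (emb e '' sys R hR c)) D =
      inp b₀ b₁ (emb e '' sys R hR c) D' := by
    intro c
    unfold inp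
    by_cases h : D' ∈ (emb e '' sys R hR c : Set (Cl n k))
    · rw [if_pos h, if_pos]
      rw [mem_negVars, ← hD']
      exact h
    · rw [if_neg h, if_neg]
      rw [mem_negVars, ← hD']
      exact h
  rw [hys, hys] at hne'
  obtain ⟨E, hE⟩ : ∃ E, emb e E = D' := by
    by_contra hcon
    apply hne'
    unfold inp
    rw [if_neg, if_neg]
    · rintro ⟨E, _, hE⟩
      exact hcon ⟨E, hE⟩
    · rintro ⟨E, _, hE⟩
      exact hcon ⟨E, hE⟩
  have hinpE : ∀ c, inp b₀ b₁ (emb e '' sys R hR c) D' = inp b₀ b₁ (sys R hR c) E := by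
    intro c
    unfold inp
    have hiff : D' ∈ (emb e '' sys R hR c : Set (Cl n k)) ↔ E ∈ sys R hR c := by
      rw [← hE]
      exact (emb_inj e).mem_set_image
    by_cases h : E ∈ sys R hR c
    · rw [if_pos h, if_pos (hiff.2 h)]
    · rw [if_neg h, if_neg (fun h' => h (hiff.1 h'))]
  rw [hinpE, hinpE] at hne'
  obtain ⟨j, hcj, hj⟩ := (sat_gauge R hR b₀ b₁).loc c E hne'
  refine ⟨j, hcj, fun f hf => ?_⟩
  -- the clause is fixed
  have h4 : ren 1 f D = D := by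
    have h6 : inp b₀ b₁ (negVars f {D}) D = inp b₀ b₁ ({D} : Set (Cl n k)) D :=
      hf ⟨{D}, by rw [Set.ncard_singleton]; exact hm⟩
    unfold inp at h6
    rw [if_pos (Set.mem_singleton D)] at h6
    by_contra hcon
    rw [if_neg] at h6
    · exact hb h6
    · rw [mem_negVars]
      exact hcon
  have h5 : ren 1 (fun v => f (e v)) E = E := by
    apply emb_inj e
    have h6 := ren_emb_res e f E
    rw [← h6, hE, hD']
    have h7 : ren 1 f (ren 1 f₁ D) = ren 1 f₁ (ren 1 f D) := by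
      have h8 := congrFun (ren_flip_flip (k := k) f f₁) D
      have h9 := congrFun (ren_flip_flip (k := k) f₁ f) D
      rw [add_comm] at h9
      exact h8.trans h9.symm
    rw [h7, h4]
  exact hj _ h5

end loc

/-- **All nondeterministic circuits**: if no satisfiable instance has a certificate then a random
unsatisfiable instance has one with small probability, unless the circuit has many views. -/
theorem cert_avg (k n : ℕ) (G : AddSubgroup (Fin n → ZMod 2)) (hk : 1 ≤ k)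
    (hG : 2 ^ k ≤ Nat.card G) :
    ∃ (Ω : Type) (_ : Fintype Ω) (_ : Nonempty Ω) (φ : Ω → Set (Cl n k)),
      (∀ ω, ¬ Satisfiable (φ ω) ∧ (φ ω).ncard ≤ 2 ^ (k + 1) * Nat.log 2 (Nat.card G)) ∧
      ∀ (K J : Type) (C : Circuit K (Cl n k ⊕ J)) (b₀ b₁ : K) (Acc : Set K) (W : Finset (J → K)),
        (∀ ψ : Set (Cl n k), ψ.ncard ≤ 2 ^ (k + 1) * Nat.log 2 (Nat.card G) → Satisfiable ψ →
          ∀ w ∈ W, C.val (Sum.elim (inp b₀ b₁ ψ) w) C.out ∉ Acc) →
        (Nat.card {ω // ∃ w ∈ W, C.val (Sum.elim (inp b₀ b₁ (φ ω)) w) C.out ∈ Acc} : ℝ) ≤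
          ((views G C b₀ b₁ W (2 ^ (k + 1) * Nat.log 2 (Nat.card G))).ncard : ℝ) *
            (2 ^ (k + 2) * (6 * (Nat.log 2 (Nat.card G) : ℝ) + 3) ^ 4) /
            ((Nat.card G : ℕ) : ℝ) ^ (1 - 29 / (10 * k) : ℝ) * Fintype.card Ω := by
  classical
  obtain ⟨H, hH1, hH2⟩ := info_set G
  obtain ⟨h, hh⟩ : ∃ h, h = H.card := ⟨_, rfl⟩
  have hlog : Nat.log 2 (Nat.card G) = h := by rw [hH1, ← hh]; exact Nat.log_pow (by norm_num) _
  rw [hlog]
  rw [hH1, ← hh] at hG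
  have hkh : k ≤ h := (Nat.pow_le_pow_iff_right (by norm_num)).1 hG
  obtain ⟨μ, hμ⟩ : ∃ μ, μ = h / k := ⟨_, rfl⟩
  have hμ0 : 0 < μ := by rw [hμ]; exact Nat.div_pos hkh (by omega)
  have hNh : μ * k ≤ h := by rw [hμ]; exact Nat.div_mul_le_self h k
  have hμh : μ ≤ h := (Nat.le_mul_of_pos_right μ (by omega)).trans hNh
  obtain ⟨e, he⟩ : ∃ e : Fin (μ * k) ↪ Fin n, ∀ v, e v ∈ H :=
    ⟨(Fin.castLEEmb hNh).trans (H.orderEmbOfFin hh.symm).toEmbedding,
      fun v => H.orderEmbOfFin_mem hh.symm _⟩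
  obtain ⟨m, hm⟩ : ∃ m, m = 2 ^ (k + 1) * h := ⟨_, rfl⟩
  have hm1 : 1 ≤ m := by
    rw [hm]
    exact Nat.mul_pos (by positivity) (by omega)
  rw [← hm]
  have hlift : ∀ t : Fin (μ * k) → ZMod 2, ∃ f ∈ G, (fun v => f (e v)) = t := by
    intro t
    obtain ⟨f, hf, hft⟩ := hH2 (extF e t)
    exact ⟨f, hf, funext fun v => by rw [hft _ (he v), extF_apply]⟩
  obtain ⟨blk, hblk⟩ := exists_blk μ k
  have hVμ : Fintype.card (Fin (2 * μ)) = 2 * μ := Fintype.card_fin _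
  have hV2 : 2 ≤ Fintype.card (Fin (2 * μ)) := by rw [hVμ]; omega
  obtain ⟨j₀⟩ : Nonempty (Fin (2 * μ)) := ⟨⟨0, by omega⟩⟩
  have hR : ∀ (π : Equiv.Perm (Fin (μ * k) × Bool)) j, (RG blk π j).card ≤ k :=
    fun π j => card_RG blk π j k (hblk j).le
  have hsm : ∀ (π : Equiv.Perm (Fin (μ * k) × Bool)) (c : Fin (2 * μ) → ZMod 2),
      (emb e '' (sys (RG blk π) (hR π) c) : Set (Cl n k)).ncard ≤ m := by
    intro π c
    rw [Set.ncard_image_of_injective _ (emb_inj e), hm]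
    refine sys_card (RG blk π) (hR π) k _ (hR π) ?_ c
    rw [Fintype.card_fin]
    calc 2 * μ * 2 ^ k = 2 ^ (k + 1) * μ := by ring
      _ ≤ _ := Nat.mul_le_mul_left _ hμh
  have hGfin : Finite G := inferInstance
  let _ : Fintype G := Fintype.ofFinite G
  refine ⟨Equiv.Perm (Fin (μ * k) × Bool) × G, inferInstance, inferInstance,
    fun ω => negVars ω.2.1 (emb e '' sys (RG blk ω.1) (hR ω.1) (cRG blk j₀ ω.1)),
    fun ω => ⟨?_, ?_⟩, ?_⟩
  · rw [sat_negVars]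
    exact cRG_unsat blk j₀ hV2 ω.1
  · rw [negVars_ncard]
    exact hsm _ _
  intro K J C b₀ b₁ Acc W hW
  obtain ⟨B, hB1, hB2⟩ := gen_union (W := {w // w ∈ W}) hμ0 G e hlift blk hblk j₀ (nact n k m)
    (fun w φ => (Sum.elim (inp b₀ b₁ φ.1) w.1 : Cl n k ⊕ J → K))
    (fun π c => ⟨emb e '' (sys (RG blk π) (hR π) c), hsm π c⟩)
    (fun π f c => Subtype.ext (negVars_sys e (RG blk π) (hR π) f c))
    (fun w π c f₁ i hne => sys_loc e b₀ b₁ (RG blk π) (hR π) hm1 (hsm π) w.1 c f₁ i hne)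
    C Acc (fun w π f _ => by
      refine hW (negVars f (emb e '' sys (RG blk π) (hR π) 0)) ?_ ?_ w.1 w.2
      · rw [negVars_ncard]
        exact hsm _ _
      · rw [sat_negVars]
        exact ⟨0, map_zero _⟩)
  have hviews : ({L | ∃ g, ∃ w : {w // w ∈ W}, ∃ f ∈ G,
      L = vi (fun φ => (Sum.elim (inp b₀ b₁ φ.1) w.1 : Cl n k ⊕ J → K)) C g ∘ (nact n k m).a f} :
      Set ({φ : Set (Cl n k) // φ.ncard ≤ m} → K × (ℕ → Multiset K))) =
      views G C b₀ b₁ W m := by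
    ext L
    constructor
    · rintro ⟨g, w, f, hf, rfl⟩
      exact ⟨g, w.1, w.2, f, hf, rfl⟩
    · rintro ⟨g, w, hw, f, hf, rfl⟩
      exact ⟨g, ⟨w, hw⟩, f, hf, rfl⟩
  rw [hviews] at hB1
  have hset : Nat.card {ω : Equiv.Perm (Fin (μ * k) × Bool) × G // ∃ w ∈ W,
      C.val (Sum.elim (inp b₀ b₁ (negVars ω.2.1
        (emb e '' sys (RG blk ω.1) (hR ω.1) (cRG blk j₀ ω.1)))) w) C.out ∈ Acc} =
      Nat.card {ω : Equiv.Perm (Fin (μ * k) × Bool) × G // ∃ w : {w // w ∈ W},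
        C.val (Sum.elim (inp b₀ b₁ ((nact n k m).a ω.2.1
          ⟨emb e '' (sys (RG blk ω.1) (hR ω.1) (cRG blk j₀ ω.1)), hsm ω.1 _⟩).1) w.1) C.out ∈
          Acc} := by
    refine Nat.card_congr (Equiv.subtypeEquivRight fun ω => ?_)
    constructor
    · rintro ⟨w, hw, h⟩
      exact ⟨⟨w, hw⟩, h⟩
    · rintro ⟨w, h⟩
      exact ⟨w.1, w.2, h⟩
  have hrate := rate_num k h hk ((views G C b₀ b₁ W m).ncard : ℝ)
    (((2 * (μ * k)).factorial : ℕ) : ℝ) (B : ℝ)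
    (Nat.cast_nonneg _) (Nat.cast_nonneg _) (by
      rw [← hμ]
      exact hB1)
  have hΩ : (Fintype.card (Equiv.Perm (Fin (μ * k) × Bool) × G) : ℝ) =
      (((2 * (μ * k)).factorial : ℕ) : ℝ) * Nat.card G := by
    rw [Fintype.card_prod, Fintype.card_perm, Fintype.card_prod, Fintype.card_fin,
      Fintype.card_bool, mul_comm (μ * k) 2, Nat.card_eq_fintype_card]
    push_cast
    rfl
  have h4 : ((Nat.card G : ℕ) : ℝ) ^ (1 - 29 / (10 * k) : ℝ) =
      (2 : ℝ) ^ ((1 - 29 / (10 * k) : ℝ) * h) := by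
    rw [hH1, ← hh]
    push_cast
    rw [← Real.rpow_natCast, ← Real.rpow_mul (by norm_num), mul_comm]
  rw [hset, hΩ, h4, ← mul_assoc]
  exact hB2.trans (mul_le_mul_of_nonneg_right hrate (Nat.cast_nonneg _))

/-- nondeterministic circuits for unsatisfiability have many views -/
theorem cert_worst (k n : ℕ) (G : AddSubgroup (Fin n → ZMod 2)) (hk : 1 ≤ k)
    (hG : 2 ^ k ≤ Nat.card G) (K J : Type) (C : Circuit K (Cl n k ⊕ J)) (b₀ b₁ : K) (Acc : Set K)
    (W : Finset (J → K))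
    (hD : ∀ ψ : Set (Cl n k), ψ.ncard ≤ 2 ^ (k + 1) * Nat.log 2 (Nat.card G) →
      ((∃ w ∈ W, C.val (Sum.elim (inp b₀ b₁ ψ) w) C.out ∈ Acc) ↔ ¬ Satisfiable ψ)) :
    ((Nat.card G : ℕ) : ℝ) ^ (1 - 29 / (10 * k) : ℝ) ≤
      ((views G C b₀ b₁ W (2 ^ (k + 1) * Nat.log 2 (Nat.card G))).ncard : ℝ) *
        (2 ^ (k + 2) * (6 * (Nat.log 2 (Nat.card G) : ℝ) + 3) ^ 4) := by
  obtain ⟨Ω, _, _, φ, h1, h2⟩ := cert_avg k n G hk hG
  have h3 := h2 K J C b₀ b₁ Acc W (fun ψ hψ hs w hw hacc => (hD ψ hψ).1 ⟨w, hw, hacc⟩ hs)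
  have h4 : Nat.card {ω // ∃ w ∈ W, C.val (Sum.elim (inp b₀ b₁ (φ ω)) w) C.out ∈ Acc} =
      Fintype.card Ω := by
    rw [← Nat.card_eq_fintype_card]
    refine Nat.card_congr (Equiv.subtypeUnivEquiv fun ω => ?_)
    exact (hD _ (h1 ω).2).2 (h1 ω).1
  rw [h4] at h3
  have hΩ : (0 : ℝ) < Fintype.card Ω := by exact_mod_cast Fintype.card_pos
  have h6 : 1 ≤ ((views G C b₀ b₁ W (2 ^ (k + 1) * Nat.log 2 (Nat.card G))).ncard : ℝ) *
      (2 ^ (k + 2) * (6 * (Nat.log 2 (Nat.card G) : ℝ) + 3) ^ 4) /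
      ((Nat.card G : ℕ) : ℝ) ^ (1 - 29 / (10 * k) : ℝ) := by
    refine le_of_mul_le_mul_right ?_ hΩ
    rw [one_mul]
    exact h3
  have hGpos : (0 : ℝ) < ((Nat.card G : ℕ) : ℝ) := by
    have : 0 < Nat.card G := lt_of_lt_of_le (by positivity) hG
    exact_mod_cast this
  rw [le_div_iff₀ (Real.rpow_pos_of_pos hGpos _), one_mul] at h6
  exact h6

/-- the number of views of a symmetric circuit -/
theorem views_symm {k n : ℕ} (G : AddSubgroup (Fin n → ZMod 2)) {K J : Type}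
    (C : Circuit K (Cl n k ⊕ J)) (b₀ b₁ : K) (W : Finset (J → K)) (m : ℕ) (hS : Symm C G W) :
    (views G C b₀ b₁ W m).ncard ≤ W.card * @Fintype.card C.Gate C.fin := by
  classical
  let _ := C.fin
  have h1 : views G C b₀ b₁ W m ⊆ Set.range (fun (p : {w // w ∈ W} × C.Gate)
      (φ : {φ : Set (Cl n k) // φ.ncard ≤ m}) =>
        view C p.2 (Sum.elim (inp b₀ b₁ φ.1) p.1.1)) := by
    rintro L ⟨g, w, hw, f, hf, rfl⟩
    obtain ⟨θ, α, hα, hθ⟩ := hS f hf
    have hw' : w ∘ θ.symm ∈ W := by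
      rw [← hθ (w ∘ θ.symm)]
      have h2 : (w ∘ θ.symm) ∘ θ = w := by
        funext j
        exact congrArg w (θ.symm_apply_apply j)
      rw [h2]
      exact hw
    refine ⟨(⟨w ∘ θ.symm, hw'⟩, α g), ?_⟩
    funext φ
    have hx : (Sum.elim (inp b₀ b₁ φ.1) (w ∘ θ.symm) : Cl n k ⊕ J → K) ∘ Sum.map (ren 1 f) θ =
        Sum.elim (inp b₀ b₁ (negVars f φ.1)) w := by
      funext i
      rcases i with D | j
      · show inp b₀ b₁ φ.1 (ren 1 f D) = inp b₀ b₁ (negVars f φ.1) D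
        unfold inp
        by_cases h : ren 1 f D ∈ φ.1
        · rw [if_pos h, if_pos ((mem_negVars f φ.1 D).2 h)]
        · rw [if_neg h, if_neg (fun h' => h ((mem_negVars f φ.1 D).1 h'))]
      · exact congrArg w (θ.symm_apply_apply j)
    show view C (α g) (Sum.elim (inp b₀ b₁ φ.1) (w ∘ θ.symm)) =
      view C g (Sum.elim (inp b₀ b₁ (negVars f φ.1)) w)
    rw [← hx]
    exact Pool.Agent.T9h47.SY.view_aut C hα g _
  refine (Set.ncard_le_ncard h1 (Set.finite_range _)).trans ?_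
  have h2 : W.card = Nat.card {w // w ∈ W} := by
    rw [Nat.card_eq_fintype_card, Fintype.card_coe]
  rw [← Nat.card_coe_set_eq, ← Nat.card_eq_fintype_card, h2, ← Nat.card_prod]
  exact Nat.card_le_card_of_surjective (Set.rangeFactorization _)
    Set.rangeFactorization_surjective

/-- the number of views of any circuit -/
theorem views_le {k n : ℕ} (G : AddSubgroup (Fin n → ZMod 2)) {K J : Type}
    (C : Circuit K (Cl n k ⊕ J)) (b₀ b₁ : K) (W : Finset (J → K)) (m : ℕ) :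
    (views G C b₀ b₁ W m).ncard ≤ Nat.card G * (W.card * @Fintype.card C.Gate C.fin) := by
  classical
  let _ := C.fin
  have h1 : views G C b₀ b₁ W m ⊆ Set.range (fun (p : G × {w // w ∈ W} × C.Gate)
      (φ : {φ : Set (Cl n k) // φ.ncard ≤ m}) =>
        view C p.2.2 (Sum.elim (inp b₀ b₁ (negVars p.1.1 φ.1)) p.2.1.1)) := by
    rintro L ⟨g, w, hw, f, hf, rfl⟩
    exact ⟨(⟨f, hf⟩, ⟨w, hw⟩, g), rfl⟩
  refine (Set.ncard_le_ncard h1 (Set.finite_range _)).trans ?_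
  have h2 : W.card = Nat.card {w // w ∈ W} := by
    rw [Nat.card_eq_fintype_card, Fintype.card_coe]
  rw [← Nat.card_coe_set_eq, ← Nat.card_eq_fintype_card, h2, ← Nat.card_prod, ← Nat.card_prod]
  exact Nat.card_le_card_of_surjective (Set.rangeFactorization _)
    Set.rangeFactorization_surjective

end Pool.Agent.T9h47.SW
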